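import Pool.Agent.H104.ML.Stm

set_option autoImplicit false

namespace Pool.Agent.Q211.ML

open Pool.Agent.H104.ML

/-- JOB FLO -/
theorem t_FLO : S_FLO := by
  intro m J b hJ hb hl
  set k : ℕ := J - lv m b with hk
  have hkr : (k : ℝ) = (J : ℝ) - (lv m b : ℝ) := by
    rw [hk, Nat.cast_sub hl]
  have hJ0 : (0 : ℝ) < J := by exact_mod_cast hJ
  have hb0 : (0 : ℝ) < b := by exact_mod_cast hb
  have hJb : 0 < J * b := Nat.mul_pos hJ hb
  have hmu : mu m J b = m * k / (J * b) := rfl
  have h1 : mu m J b * (J * b) ≤ m * k := by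
    rw [hmu]
    exact Nat.div_mul_le_self _ _
  have h2 : m * k < (mu m J b + 1) * (J * b) := by
    rw [hmu]
    have h := Nat.lt_mul_div_succ (m * k) hJb
    exact h.trans_eq (mul_comm _ _)
  have h1r : (mu m J b : ℝ) * (J * b) ≤ m * k := by exact_mod_cast h1
  have h2r : (m : ℝ) * k < (mu m J b + 1) * (J * b) := by exact_mod_cast h2
  have hw : ww m J b = (k : ℝ) / J := by
    unfold ww
    rw [hkr]
  refine ⟨⟨?_, ?_⟩, fun hlt hmu1 => ?_⟩
  · rw [hw]
    have h3 : (m : ℝ) * (k / J) * J = m * k := by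
      field_simp
    have h4 : ((m : ℝ) * (k / J) - b) * J ≤ (b * mu m J b) * J := by
      rw [sub_mul, h3]
      nlinarith
    exact le_of_mul_le_mul_right h4 hJ0
  · rw [hw]
    have h3 : (m : ℝ) * (k / J) * J = m * k := by
      field_simp
    have h4 : (b * mu m J b : ℝ) * J ≤ (m : ℝ) * (k / J) * J := by
      rw [h3]
      nlinarith
    exact le_of_mul_le_mul_right h4 hJ0
  · have hk1 : (1 : ℝ) ≤ k := by
      have : 1 ≤ k := by omega
      exact_mod_cast this
    have hm1 : (1 : ℝ) ≤ mu m J b := by exact_mod_cast hmu1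
    rw [div_le_iff₀ (by positivity)]
    have h5 : (m : ℝ) ≤ m * k := by
      have : (0 : ℝ) ≤ m := Nat.cast_nonneg _
      nlinarith
    have h6 : ((mu m J b : ℝ) + 1) * (J * b) ≤ (2 * mu m J b) * (J * b) :=
      mul_le_mul_of_nonneg_right (by linarith) (by positivity)
    nlinarith

end Pool.Agent.Q211.ML
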