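import Pool.Agent.H104.ML.Stm

set_option autoImplicit false

namespace Pool.Agent.Q211.ML

open Finset Pool.Agent.H104.ML

theorem lev_anti (m : ℕ) {p q : ℕ} (hp : 2 ≤ p) (hpq : p ≤ q) : lev m q ≤ lev m p := by
  have hne : {i | m < p ^ 2 ^ i}.Nonempty := by
    refine ⟨m, ?_⟩
    show m < p ^ 2 ^ m
    calc m < 2 ^ m := Nat.lt_two_pow_self
      _ < 2 ^ 2 ^ m := Nat.lt_two_pow_self
      _ ≤ p ^ 2 ^ m := Nat.pow_le_pow_left hp _
  have h1 : m < p ^ 2 ^ lev m p := Nat.sInf_mem hne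
  exact Nat.sInf_le (lt_of_lt_of_le h1 (Nat.pow_le_pow_left hpq _))

/-- JOB SSD -/
theorem t_SSD : S_SSD := by
  classical
  intro m J hJ
  have hmem : ∀ b, b ∈ SS m J ↔ (1 ≤ b ∧ b ≤ m) ∧ Squarefree b ∧ lv m b < J := by
    intro b
    unfold SS
    rw [Finset.mem_filter, Finset.mem_Icc]
  refine ⟨fun b hb => ((hmem b).1 hb).2.1, fun b hb p hp => ?_, ?_, fun hm => ⟨?_, ?_⟩⟩
  · obtain ⟨⟨hb1, hbm⟩, hsq, hl⟩ := (hmem b).1 hb
    have hpb : p ∣ b := Nat.dvd_of_mem_primeFactors hp
    have hpp : p.Prime := Nat.prime_of_mem_primeFactors hp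
    have hdv : b / p ∣ b := Nat.div_dvd_of_dvd hpb
    have hpos : 1 ≤ b / p := Nat.div_pos (Nat.le_of_dvd hb1 hpb) hpp.pos
    refine (hmem _).2 ⟨⟨hpos, (Nat.div_le_self _ _).trans hbm⟩, hsq.squarefree_of_dvd hdv, ?_⟩
    unfold lv at hl ⊢
    by_cases h1 : b / p = 1
    · rw [if_pos h1]
      exact hJ
    · rw [if_neg h1]
      have hb2 : b ≠ 1 := by
        rintro rfl
        exact hpp.one_lt.ne' (Nat.dvd_one.1 hpb)
      rw [if_neg hb2] at hl
      have h2 : (b / p).minFac.Prime := Nat.minFac_prime h1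
      have h3 : b.minFac ≤ (b / p).minFac :=
        Nat.minFac_le_of_dvd h2.two_le ((Nat.minFac_dvd _).trans hdv)
      exact (lev_anti m (Nat.minFac_prime hb2).two_le h3).trans_lt hl
  · calc ∑ b ∈ SS m J, b.totient * mu m J b ≤ ∑ _b ∈ SS m J, m := by
          refine Finset.sum_le_sum fun b hb => ?_
          obtain ⟨⟨hb1, hbm⟩, hsq, hl⟩ := (hmem b).1 hb
          have h1 : mu m J b ≤ m / b := by
            unfold mu
            rw [← Nat.div_div_eq_div_mul]
            refine Nat.div_le_div_right ?_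
            refine Nat.div_le_of_le_mul ?_
            rw [mul_comm J m]
            exact Nat.mul_le_mul_left _ (Nat.sub_le _ _)
          calc b.totient * mu m J b ≤ b * (m / b) := Nat.mul_le_mul (Nat.totient_le b) h1
            _ ≤ m := Nat.mul_div_le m b
      _ = (SS m J).card * m := by rw [Finset.sum_const, smul_eq_mul]
      _ ≤ m * m := by
          refine Nat.mul_le_mul_right _ ?_
          have h1 : (SS m J).card ≤ (Icc 1 m).card := by
            unfold SS
            exact Finset.card_filter_le _ _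
          simpa using h1
      _ = m ^ 2 := (sq m).symm
  · refine (hmem 1).2 ⟨⟨le_rfl, hm⟩, squarefree_one, ?_⟩
    unfold lv
    rw [if_pos rfl]
    exact hJ
  · unfold mu lv
    rw [if_pos rfl, Nat.sub_zero, mul_one]
    exact Nat.mul_div_cancel m hJ

end Pool.Agent.Q211.ML
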